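import Pool.Agent.W2helper58.SS.Stm
import Pool.Agent.W2helper85.GF.Asym
import Mathlib.Analysis.SpecialFunctions.Pow.Asymptotics

/-!
# The numbers for the generator with seed length `c log m` (pieces `P_asym2`, `P_stage2`)
-/

namespace Pool.Agent.W2helper85.SS

open Filter Pool.Agent.NPC Pool.Agent.H620R2.Gauge Pool.Agent.W2helper58.GF
  Pool.Agent.W2helper58.SS Pool.Agent.W2helper85.GF

theorem eval_le_mul_pow (P : Polynomial ℕ) {n : ℕ} (hn : 1 ≤ n) :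
    P.eval n ≤ P.eval 1 * n ^ P.natDegree := by
  rw [Polynomial.eval_eq_sum_range, Polynomial.eval_eq_sum_range, Finset.sum_mul]
  refine Finset.sum_le_sum fun i hi => ?_
  rw [one_pow, mul_one]
  exact Nat.mul_le_mul_left _ (Nat.pow_le_pow_right hn
    (Nat.lt_succ_iff.1 (Finset.mem_range.1 hi)))

theorem eventually_pow_lt (D : ℕ) : ∀ᶠ n : ℕ in Filter.atTop, n ^ D < 2 ^ n := by
  have h := tendsto_pow_const_div_const_pow_of_one_lt D (r := (2 : ℝ)) one_lt_two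
  filter_upwards [h.eventually (gt_mem_nhds (zero_lt_one : (0 : ℝ) < 1))] with n hn
  rw [div_lt_one (by positivity)] at hn
  exact_mod_cast hn

/-- a power with a larger exponent wins -/
theorem eventually_rpow (A : ℝ) {g e : ℝ} (h : g < e) :
    ∀ᶠ m : ℕ in atTop, A * (m : ℝ) ^ g ≤ (m : ℝ) ^ e := by
  have h1 : Tendsto (fun m : ℕ => (m : ℝ) ^ (e - g)) atTop atTop :=
    (tendsto_rpow_atTop (sub_pos.2 h)).comp tendsto_natCast_atTop_atTop
  filter_upwards [h1.eventually_ge_atTop A, eventually_ge_atTop 1] with m hm hm1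
  have h0 : (0 : ℝ) < m := by exact_mod_cast hm1
  calc A * (m : ℝ) ^ g ≤ (m : ℝ) ^ (e - g) * (m : ℝ) ^ g :=
        mul_le_mul_of_nonneg_right hm (Real.rpow_nonneg h0.le _)
    _ = (m : ℝ) ^ e := by
        rw [← Real.rpow_add h0]; congr 1; ring

/-- the size of a number -/
theorem size_le_rpow {δ : ℝ} (hδ : 0 < δ) (n : ℕ) (hn : 1 ≤ n) :
    (Nat.size n : ℝ) ≤ (2 / δ + 1) * (n : ℝ) ^ δ := by
  have h0 : (0 : ℝ) < n := by exact_mod_cast hn
  have h1 : Nat.size n = Nat.log 2 n + 1 := by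
    apply le_antisymm
    · exact Nat.size_le.2 (Nat.lt_pow_succ_log_self (by norm_num) n)
    · exact Nat.lt_size.2 (Nat.pow_log_le_self 2 (by omega))
  have h2 : (Nat.log 2 n : ℝ) ≤ 2 * Real.log n := by
    have h3 : (2 : ℝ) ^ Nat.log 2 n ≤ n := by
      exact_mod_cast Nat.pow_log_le_self 2 (show n ≠ 0 by omega)
    have h4 := Real.log_le_log (by positivity) h3
    rw [Real.log_pow] at h4
    have h5 : (1 / 2 : ℝ) ≤ Real.log 2 := by
      have := Real.log_two_gt_d9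
      linarith
    have h6 : (0 : ℝ) ≤ Nat.log 2 n := Nat.cast_nonneg _
    nlinarith
  have h3 : Real.log n ≤ (n : ℝ) ^ δ / δ := Real.log_le_rpow_div h0.le hδ
  have h4 : (1 : ℝ) ≤ (n : ℝ) ^ δ := Real.one_le_rpow (by exact_mod_cast hn) hδ.le
  rw [h1]
  push_cast
  calc (Nat.log 2 n : ℝ) + 1 ≤ 2 * ((n : ℝ) ^ δ / δ) + (n : ℝ) ^ δ := by linarith
    _ = (2 / δ + 1) * (n : ℝ) ^ δ := by ring

theorem sd_lower (p q m : ℕ) (hq : 0 < q) :
    (m : ℝ) ^ ((p : ℝ) / q) ≤ 2 * 2 ^ sd p q m := by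
  have h1 : m ^ p < 2 ^ (Nat.log 2 (m ^ p) + 1) := Nat.lt_pow_succ_log_self (by norm_num) _
  have h2 : Nat.log 2 (m ^ p) + 1 ≤ (sd p q m + 1) * q := by
    have := Nat.lt_mul_div_succ (Nat.log 2 (m ^ p)) hq
    unfold sd
    nlinarith
  have h3 : m ^ p ≤ (2 ^ (sd p q m + 1)) ^ q := by
    rw [← pow_mul]
    exact h1.le.trans (Nat.pow_le_pow_right (by norm_num) h2)
  have h4 : (m : ℝ) ^ p ≤ ((2 : ℝ) ^ (sd p q m + 1)) ^ q := by exact_mod_cast h3
  have hq' : (q : ℝ) ≠ 0 := by positivity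
  calc (m : ℝ) ^ ((p : ℝ) / q) = ((m : ℝ) ^ p) ^ ((q : ℝ)⁻¹) := by
        rw [div_eq_mul_inv, Real.rpow_mul (Nat.cast_nonneg _), Real.rpow_natCast]
    _ ≤ (((2 : ℝ) ^ (sd p q m + 1)) ^ q) ^ ((q : ℝ)⁻¹) :=
        Real.rpow_le_rpow (by positivity) h4 (by positivity)
    _ = (2 : ℝ) ^ (sd p q m + 1) := Real.pow_rpow_inv_natCast (by positivity) hq.ne'
    _ = 2 * 2 ^ sd p q m := by rw [pow_succ]; ring

theorem sd_upper (p q : ℕ) : ∀ᶠ m : ℕ in atTop, sd p q m ≤ m := by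
  filter_upwards [eventually_pow_lt p, eventually_ge_atTop 1] with m hm hm1
  have h1 : Nat.log 2 (m ^ p) < m := Nat.log_lt_of_lt_pow (by positivity) hm
  exact (Nat.div_le_self _ _).trans h1.le

theorem p_asym2 : P_asym2 := by
  intro f C K p q hq h1e hCe hf
  set e : ℝ := (p : ℝ) / q with he
  set g : ℝ := max ((1 + e) / 2) C with hg
  have hg1 : 1 < g := lt_of_lt_of_le (by linarith) (le_max_left _ _)
  have hge : g < e := max_lt (by linarith) hCe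
  have hCg : C ≤ g := le_max_right _ _
  obtain ⟨N0, hN0⟩ := eventually_atTop.1 hf
  set A : ℝ := K * ((2 / (g - 1) + 1) * 2 ^ g) + 3 ^ g + 2 with hA
  filter_upwards [eventually_ge_atTop N0, eventually_ge_atTop 1, sd_upper p q,
    eventually_rpow (512 * A) hge] with m hm1 hm2 hm3 hm4
  obtain ⟨N', hN', hfN⟩ := hN0 (2 ^ (sd p q m + m + 1))
    (hm1.trans ((Nat.lt_two_pow_self (n := m)).le.trans
      (Nat.pow_le_pow_right (by norm_num) (by omega))))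
  refine ⟨N', hN', ?_⟩
  rw [logb_two_pow] at hfN
  rw [neg_div]
  have hm0 : (0 : ℝ) < m := by exact_mod_cast hm2
  have hm1' : (1 : ℝ) ≤ m := by exact_mod_cast hm2
  refine key _ m (f N') _ _ hfN (by positivity) ?_
  have hX : ((sd p q m + m + 1 : ℕ) : ℝ) ^ C ≤ 3 ^ g * (m : ℝ) ^ g := by
    have h1 : (1 : ℝ) ≤ ((sd p q m + m + 1 : ℕ) : ℝ) := by
      exact_mod_cast (by omega : 1 ≤ sd p q m + m + 1)
    have h2 : ((sd p q m + m + 1 : ℕ) : ℝ) ≤ 3 * m := by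
      exact_mod_cast (by omega : sd p q m + m + 1 ≤ 3 * m)
    calc ((sd p q m + m + 1 : ℕ) : ℝ) ^ C ≤ ((sd p q m + m + 1 : ℕ) : ℝ) ^ g :=
          Real.rpow_le_rpow_of_exponent_le h1 hCg
      _ ≤ (3 * (m : ℝ)) ^ g := Real.rpow_le_rpow (by linarith) h2 (by linarith)
      _ = 3 ^ g * (m : ℝ) ^ g := Real.mul_rpow (by norm_num) hm0.le
  have hS : ((K * (m + 1) * Nat.size (m + 1) : ℕ) : ℝ) ≤
      K * ((2 / (g - 1) + 1) * 2 ^ g) * (m : ℝ) ^ g := by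
    have h1 := size_le_rpow (sub_pos.2 hg1) (m + 1) (by omega)
    have h0 : (0 : ℝ) < ((m + 1 : ℕ) : ℝ) := by positivity
    have h2 : ((m + 1 : ℕ) : ℝ) * ((m + 1 : ℕ) : ℝ) ^ (g - 1) = ((m + 1 : ℕ) : ℝ) ^ g := by
      conv_lhs => rw [← Real.rpow_one ((m + 1 : ℕ) : ℝ)]
      rw [← Real.rpow_mul h0.le, one_mul, ← Real.rpow_add h0]
      congr 1; ring
    have h3 : ((m + 1 : ℕ) : ℝ) ^ g ≤ 2 ^ g * (m : ℝ) ^ g := by
      rw [← Real.mul_rpow (by norm_num) hm0.le]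
      refine Real.rpow_le_rpow h0.le ?_ (by linarith)
      exact_mod_cast (by omega : m + 1 ≤ 2 * m)
    have hc : 0 ≤ 2 / (g - 1) + 1 := by
      have : 0 < g - 1 := sub_pos.2 hg1
      positivity
    calc ((K * (m + 1) * Nat.size (m + 1) : ℕ) : ℝ)
        = K * (((m + 1 : ℕ) : ℝ) * (Nat.size (m + 1) : ℝ)) := by push_cast; ring
      _ ≤ K * (((m + 1 : ℕ) : ℝ) * ((2 / (g - 1) + 1) * ((m + 1 : ℕ) : ℝ) ^ (g - 1))) := by
          gcongr
      _ = K * ((2 / (g - 1) + 1) * ((m + 1 : ℕ) : ℝ) ^ g) := by rw [← h2]; ring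
      _ ≤ K * ((2 / (g - 1) + 1) * (2 ^ g * (m : ℝ) ^ g)) := by gcongr
      _ = K * ((2 / (g - 1) + 1) * 2 ^ g) * (m : ℝ) ^ g := by ring
  have h1 : (1 : ℝ) ≤ (m : ℝ) ^ g := Real.one_le_rpow hm1' (by linarith)
  have h2 : (m : ℝ) ≤ (m : ℝ) ^ g := by
    calc (m : ℝ) = (m : ℝ) ^ (1 : ℝ) := (Real.rpow_one _).symm
      _ ≤ (m : ℝ) ^ g := Real.rpow_le_rpow_of_exponent_le hm1' hg1.le
  have h3 := sd_lower p q m hq
  rw [← he] at h3
  rw [le_div_iff₀ (by norm_num)]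
  have h4 : A * (m : ℝ) ^ g * 512 ≤ 2 * 2 ^ sd p q m := by linarith
  have h5 : A * (m : ℝ) ^ g = K * ((2 / (g - 1) + 1) * 2 ^ g) * (m : ℝ) ^ g +
      3 ^ g * (m : ℝ) ^ g + 2 * (m : ℝ) ^ g := by
    rw [hA]; ring
  rw [h5] at h4
  linarith

theorem eventually_eval_lt (P : Polynomial ℕ) (R : ℕ) :
    ∀ᶠ a : ℕ in atTop, 16 * (a + 1) ^ R * (P.eval a + 1) < 2 ^ a := by
  filter_upwards [eventually_pow_lt (R + P.natDegree + 1),
    eventually_ge_atTop (16 * 2 ^ R * (P.eval 1 + 1) + 1)] with a ha ha1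
  have h0 : 1 ≤ a := by omega
  have h1 := eval_le_mul_pow P h0
  have h2 : 1 ≤ a ^ P.natDegree := Nat.one_le_pow _ _ h0
  have h3 : (a + 1) ^ R ≤ 2 ^ R * a ^ R := by
    rw [← mul_pow]
    exact Nat.pow_le_pow_left (by omega) _
  calc 16 * (a + 1) ^ R * (P.eval a + 1)
      ≤ 16 * (2 ^ R * a ^ R) * (P.eval 1 * a ^ P.natDegree + a ^ P.natDegree) := by
        gcongr
    _ = a ^ (R + P.natDegree) * (16 * 2 ^ R * (P.eval 1 + 1)) := by ring
    _ ≤ a ^ (R + P.natDegree) * a := Nat.mul_le_mul_left _ (by omega)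
    _ = a ^ (R + P.natDegree + 1) := by ring
    _ < 2 ^ a := ha

theorem kk_bound (r : ℚ) (hr : 0 < r) (a : ℕ) :
    (2 : ℝ) ^ kk r a ≤ 16 * ((a + 1 : ℕ) : ℝ) ^ (r : ℝ) := by
  have h0 : (0 : ℝ) < ((a + 1 : ℕ) : ℝ) := by positivity
  have h1 : (0 : ℝ) ≤ (r : ℝ) * Real.logb 2 (a + 1 : ℕ) := by
    apply mul_nonneg (by exact_mod_cast hr.le)
    exact Real.logb_nonneg (by norm_num) (by exact_mod_cast (by omega : 1 ≤ a + 1))
  have h2 := Nat.floor_le h1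
  unfold kk
  rw [pow_add]
  have h3 : (2 : ℝ) ^ ⌊(r : ℝ) * Real.logb 2 (a + 1 : ℕ)⌋₊ ≤ ((a + 1 : ℕ) : ℝ) ^ (r : ℝ) := by
    rw [← Real.rpow_natCast]
    calc (2 : ℝ) ^ ((⌊(r : ℝ) * Real.logb 2 (a + 1 : ℕ)⌋₊ : ℕ) : ℝ)
        ≤ (2 : ℝ) ^ ((r : ℝ) * Real.logb 2 (a + 1 : ℕ)) :=
          Real.rpow_le_rpow_of_exponent_le (by norm_num) h2
      _ = ((a + 1 : ℕ) : ℝ) ^ (r : ℝ) := by
          rw [mul_comm, Real.rpow_mul (by norm_num), Real.rpow_logb (by norm_num) (by norm_num) h0]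
  linarith

theorem p_stage2 : P_stage2 := by
  intro f c hc hf r hr hrc P prev
  set R : ℕ := ⌈(r : ℝ)⌉₊ with hR
  set g : ℝ := max 1 (r : ℝ) with hg
  have hg1 : 1 ≤ g := le_max_left _ _
  have hrg : (r : ℝ) ≤ g := le_max_right _ _
  have hgc : g < c := max_lt hc hrc
  set C : ℝ := (g + c) / 2 with hC
  have hgC : g < C := by rw [hC]; linarith
  have hCc : C < c := by rw [hC]; linarith
  obtain ⟨a₁, ha₁⟩ := eventually_atTop.1 (eventually_rpow
    (2 ^ C * (prev + 16 * 2 ^ g + 1)) hgC)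
  obtain ⟨a₂, ha₂⟩ := eventually_atTop.1 (eventually_eval_lt P R)
  have h1 := hf C hCc
  rw [Filter.frequently_atTop] at h1
  obtain ⟨N, hN, hNf⟩ := h1 (2 ^ (a₁ + a₂ + prev + 2))
  have hN0 : N ≠ 0 := by
    have : 0 < 2 ^ (a₁ + a₂ + prev + 2) := by positivity
    omega
  set a : ℕ := Nat.log 2 N + 1 with ha
  have hn2 : a₁ + a₂ + prev + 2 ≤ Nat.log 2 N := Nat.le_log_of_pow_le (by norm_num) hN
  have hpow : 2 ^ (Nat.log 2 N) ≤ N := Nat.pow_log_le_self 2 hN0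
  have hNlt : N < 2 ^ a := Nat.lt_pow_succ_log_self (by norm_num) N
  have hP : 16 * (a + 1) ^ R * (P.eval a + 1) < 2 ^ a := ha₂ a (by omega)
  have hk := kk_bound r hr a
  have hk2 : 2 ^ kk r a ≤ 16 * (a + 1) ^ R := by
    have h2 : ((a + 1 : ℕ) : ℝ) ^ (r : ℝ) ≤ ((a + 1 : ℕ) : ℝ) ^ R := by
      rw [← Real.rpow_natCast]
      exact Real.rpow_le_rpow_of_exponent_le (by exact_mod_cast (by omega : 1 ≤ a + 1))
        (Nat.le_ceil _)
    have h3 : (2 : ℝ) ^ kk r a ≤ 16 * ((a + 1 : ℕ) : ℝ) ^ R := by linarith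
    exact_mod_cast h3
  have hk3 : 2 ^ kk r a * (P.eval a + 1) < 2 ^ a :=
    lt_of_le_of_lt (Nat.mul_le_mul_right _ hk2) hP
  have hka : kk r a ≤ a := by
    have h2 : 2 ^ kk r a < 2 ^ a := lt_of_le_of_lt (Nat.le_mul_of_pos_right _ (by omega)) hk3
    exact ((Nat.pow_lt_pow_iff_right (by norm_num)).1 h2).le
  refine ⟨a, by omega, hka, ?_, ?_⟩
  · have h2 : 2 ^ a = 2 ^ kk r a * 2 ^ (a - kk r a) := by
      rw [← pow_add]; congr 1; omega
    rw [h2] at hk3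
    exact (Nat.lt_of_mul_lt_mul_left hk3).le
  · intro N' hN'
    refine le_trans ?_ (hNf N' (hNlt.le.trans hN')).le
    have ha0 : (1 : ℝ) ≤ a := by exact_mod_cast (by omega : 1 ≤ a)
    have h3 : (a : ℝ) / 2 ≤ Real.logb 2 N := by
      have h4 : ((Nat.log 2 N : ℕ) : ℝ) ≤ Real.logb 2 N := by
        rw [Real.le_logb_iff_rpow_le (by norm_num) (by exact_mod_cast Nat.pos_of_ne_zero hN0),
          Real.rpow_natCast]
        exact_mod_cast hpow
      have h5 : (a : ℝ) / 2 ≤ (Nat.log 2 N : ℕ) := by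
        rw [div_le_iff₀ (by norm_num)]
        exact_mod_cast (by omega : a ≤ Nat.log 2 N * 2)
      linarith
    refine le_trans ?_ (Real.rpow_le_rpow (by positivity) h3 (by linarith))
    have hsz : Nat.size (P.eval a) ≤ a := by
      apply Nat.size_le.2
      have h4 : P.eval a ≤ 16 * (a + 1) ^ R * (P.eval a + 1) := by
        have : 1 ≤ 16 * (a + 1) ^ R := by
          have : 1 ≤ (a + 1) ^ R := Nat.one_le_pow _ _ (by omega)
          omega
        nlinarith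
      exact lt_of_le_of_lt h4 hP
    have hag : (a : ℝ) ≤ (a : ℝ) ^ g := by
      calc (a : ℝ) = (a : ℝ) ^ (1 : ℝ) := (Real.rpow_one _).symm
        _ ≤ (a : ℝ) ^ g := Real.rpow_le_rpow_of_exponent_le ha0 hg1
    have h1g : (1 : ℝ) ≤ (a : ℝ) ^ g := Real.one_le_rpow ha0 (by linarith)
    have hkg : (2 : ℝ) ^ kk r a ≤ 16 * (2 ^ g * (a : ℝ) ^ g) := by
      refine hk.trans ?_
      gcongr
      calc ((a + 1 : ℕ) : ℝ) ^ (r : ℝ) ≤ ((a + 1 : ℕ) : ℝ) ^ g :=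
            Real.rpow_le_rpow_of_exponent_le (by exact_mod_cast (by omega : 1 ≤ a + 1)) hrg
        _ ≤ (2 * (a : ℝ)) ^ g := by
            refine Real.rpow_le_rpow (by positivity) ?_ (by linarith)
            exact_mod_cast (by omega : a + 1 ≤ 2 * a)
        _ = 2 ^ g * (a : ℝ) ^ g := Real.mul_rpow (by norm_num) (by positivity)
    have hbig := ha₁ a (by omega)
    have hpos : (0 : ℝ) < 2 ^ C := by positivity
    rw [Real.div_rpow (by positivity) (by norm_num), le_div_iff₀ hpos]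
    have hszR : (Nat.size (P.eval a) : ℝ) ≤ a := by exact_mod_cast hsz
    push_cast
    have hprev : (prev : ℝ) ≤ prev * (a : ℝ) ^ g := by
      have : (0 : ℝ) ≤ prev := Nat.cast_nonneg _
      nlinarith
    calc ((prev : ℝ) + 2 ^ kk r a + Nat.size (P.eval a)) * 2 ^ C
        ≤ (prev * (a : ℝ) ^ g + 16 * (2 ^ g * (a : ℝ) ^ g) + (a : ℝ) ^ g) * 2 ^ C := by
          gcongr
          linarith
      _ = 2 ^ C * (prev + 16 * 2 ^ g + 1) * (a : ℝ) ^ g := by ring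
      _ ≤ (a : ℝ) ^ C := hbig

end Pool.Agent.W2helper85.SS
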